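import Pool.Agent.H97.NF.Pair

/-!
Module FE2 of the board nf (MP_57ddd5_pr): dependence on one entry of the profile.
-/

open MeasureTheory ProbabilityTheory Filter Topology
open scoped ENNReal

namespace Pool.Agent.H2.NF

open Pool.Agent.H97.NF
open Pool.Agent.H99.NS

theorem eA_update (E : PEnv) (x : Site) (e : ℕ × ℕ) :
    eA (Function.update E x e) = Function.update (eA E) x e.1 := by
  funext y
  unfold eA
  by_cases h : y = x
  · subst h; simp
  · simp [Function.update_of_ne h]

theorem eB_update (E : PEnv) (x : Site) (e : ℕ × ℕ) :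
    eB (Function.update E x e) = Function.update (eB E) x e.2 := by
  funext y
  unfold eB
  by_cases h : y = x
  · subst h; simp
  · simp [Function.update_of_ne h]

theorem Ex_update (q : ℝ) (x : Site) (h : Env → ℝ) (ω : Env) (k : ℕ) :
    Ex q x h (Function.update ω x k) = Ex q x h ω := by
  unfold Ex
  simp only [Function.update_idem]

theorem Ex_Dx (q : ℝ) (x : Site) (h : Env → ℝ) (ω : Env) : Ex q x (Dx q x h) ω = 0 := by
  have e : Ex q x (Dx q x h) ω = ∫ k, (h (Function.update ω x k) - Ex q x h ω) ∂(geo q) := by
    change ∫ k, (h (Function.update ω x k) - Ex q x h (Function.update ω x k)) ∂(geo q) = _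
    simp only [Ex_update]
  rw [e]
  by_cases hi : Integrable (fun k => h (Function.update ω x k)) (geo q)
  · rw [integral_sub hi (integrable_const _)]
    simp [Ex]
  · have h0 : Ex q x h ω = 0 := integral_undef hi
    rw [h0]
    simp only [sub_zero]
    exact integral_undef hi

theorem measurable_update1 (x : Site) :
    Measurable (fun p : PEnv × ℕ => Function.update (eA p.1) x p.2) :=
  (measurable_upd x).comp ((measurable_eA.comp measurable_fst).prodMk measurable_snd)

theorem measurable_update2 (x : Site) :
    Measurable (fun p : PEnv × ℕ => Function.update (eB p.1) x p.2) :=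
  (measurable_upd x).comp ((measurable_eB.comp measurable_fst).prodMk measurable_snd)

/-- The diagonal replacement. -/
theorem mp_diag (q : ℝ) (ρ : Site → ℝ) (x : Site) :
    MeasurePreserving (fun p : PEnv × ℕ => Function.update p.1 x (p.2, p.2))
      ((PN q ρ).prod (geo q)) (PN q (Function.update ρ x 0)) := by
  have h1 := mp_updPN q ρ x 0
  have h2 : MeasurePreserving (fun k : ℕ => (k, k)) (geo q) (pairLaw q 0) :=
    ⟨measurable_from_nat, (pairLaw_zero q).symm⟩
  exact h1.comp ((MeasurePreserving.id (PN q ρ)).prod h2)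

theorem mp_one_fst (q : ℝ) (ρ : Site → ℝ) :
    MeasurePreserving (fun p : PEnv × (ℕ × ℕ) => (p.1, p.2.1))
      ((PN q ρ).prod (pairLaw q 1)) ((PN q ρ).prod (geo q)) :=
  (MeasurePreserving.id (PN q ρ)).prod ⟨measurable_fst, pairLaw_fst q 1⟩

theorem mp_one_snd (q : ℝ) (ρ : Site → ℝ) :
    MeasurePreserving (fun p : PEnv × (ℕ × ℕ) => (p.1, p.2.2))
      ((PN q ρ).prod (pairLaw q 1)) ((PN q ρ).prod (geo q)) :=
  (MeasurePreserving.id (PN q ρ)).prod ⟨measurable_snd, pairLaw_snd q 1⟩

section Main

variable {q : ℝ} {g h u : Env → ℝ} {ρ : Site → ℝ} {x : Site}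

theorem intJ
    (hi : Integrable (fun E => g (eA E) * h (eB E)) (PN q (Function.update ρ x 0))) :
    Integrable (fun p : PEnv × ℕ => g (Function.update (eA p.1) x p.2) *
      h (Function.update (eB p.1) x p.2)) ((PN q ρ).prod (geo q)) := by
  have := (mp_diag q ρ x).integrable_comp_of_integrable hi
  refine this.congr (Filter.Eventually.of_forall fun p => ?_)
  simp only [Function.comp, eA_update, eB_update]

theorem intF1 (hg : Measurable g) (hu : Measurable u)
    (hux : ∀ ω k, u (Function.update ω x k) = u ω)
    (hi : Integrable (fun E => g (eA E) * u (eB E)) (PN q (Function.update ρ x 1))) :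
    Integrable (fun p : PEnv × ℕ => g (Function.update (eA p.1) x p.2) * u (eB p.1))
      ((PN q ρ).prod (geo q)) := by
  have hm : Measurable (fun p : PEnv × ℕ =>
      g (Function.update (eA p.1) x p.2) * u (eB p.1)) :=
    (hg.comp (measurable_update1 x)).mul (hu.comp (measurable_eB.comp measurable_fst))
  rw [← (mp_one_fst q ρ).integrable_comp hm.aestronglyMeasurable]
  have := (mp_updPN q ρ x 1).integrable_comp_of_integrable hi
  refine this.congr (Filter.Eventually.of_forall fun p => ?_)
  simp only [Function.comp, eA_update, eB_update, hux]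

theorem intF2 (hg : Measurable g) (hu : Measurable u)
    (hux : ∀ ω k, u (Function.update ω x k) = u ω)
    (hi : Integrable (fun E => u (eA E) * g (eB E)) (PN q (Function.update ρ x 1))) :
    Integrable (fun p : PEnv × ℕ => u (eA p.1) * g (Function.update (eB p.1) x p.2))
      ((PN q ρ).prod (geo q)) := by
  have hm : Measurable (fun p : PEnv × ℕ =>
      u (eA p.1) * g (Function.update (eB p.1) x p.2)) :=
    (hu.comp (measurable_eA.comp measurable_fst)).mul (hg.comp (measurable_update2 x))
  rw [← (mp_one_snd q ρ).integrable_comp hm.aestronglyMeasurable]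
  have := (mp_updPN q ρ x 1).integrable_comp_of_integrable hi
  refine this.congr (Filter.Eventually.of_forall fun p => ?_)
  simp only [Function.comp, eA_update, eB_update, hux]

end Main

theorem pf_FE2 (h1 : T_FE1) (hN : T_NIC) (hI : T_INT) : T_FE2 := by
  obtain ⟨hN1, hN2, -, -, hN5, hN6, -⟩ := hN
  intro q hq0 hq1 S g h hg hh ρ x s hs0 hs1
  have hEg : Nice S (Ex q x g) := hN2 _ _ _ (Finset.erase_subset x S) (hN5 q hq0 hq1 S g x hg)
  have hEh : Nice S (Ex q x h) := hN2 _ _ _ (Finset.erase_subset x S) (hN5 q hq0 hq1 S h x hh)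
  have hDg : Nice S (Dx q x g) := hN6 q hq0 hq1 S g x hg
  have hDh : Nice S (Dx q x h) := hN6 q hq0 hq1 S h x hh
  have mg := hN1 S g hg
  have mh := hN1 S h hh
  have mEg := hN1 S _ hEg
  have mEh := hN1 S _ hEh
  -- the one-site formula for the differences
  have hD : ∀ s : ℝ, 0 ≤ s → s ≤ 1 →
      FF q (Dx q x g) (Dx q x h) (Function.update ρ x s) =
        (1 - s) * ∫ k, FF q (fun ω => Dx q x g (Function.update ω x k))
          (fun ω => Dx q x h (Function.update ω x k)) ρ ∂(geo q) := by
    intro s hs0 hs1
    rw [h1 q hq0 hq1 S _ _ hDg hDh ρ x s hs0 hs1]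
    have h0 : FF q (Ex q x (Dx q x g)) (Ex q x (Dx q x h)) ρ = 0 := by
      unfold FF
      simp only [Ex_Dx, zero_mul, integral_zero]
    rw [h0, mul_zero, add_zero]
  have hD0 := hD 0 le_rfl zero_le_one
  rw [sub_zero, one_mul] at hD0
  -- the identity `K1 = K0 - E0`
  have hK : FF q (Dx q x g) (Dx q x h) (Function.update ρ x 0) =
      (∫ k, FF q (fun ω => g (Function.update ω x k)) (fun ω => h (Function.update ω x k)) ρ
        ∂(geo q)) - FF q (Ex q x g) (Ex q x h) ρ := by
    rw [hD0]
    have iJ := intJ (x := x) ((hI q hq0 hq1 S g h hg hh).1 (Function.update ρ x 0)).1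
    have iF1 := intF1 (x := x) (ρ := ρ) mg mEh (Ex_update q x h)
      ((hI q hq0 hq1 S g _ hg hEh).1 (Function.update ρ x 1)).1
    have iF2 := intF2 (x := x) (ρ := ρ) mh mEg (Ex_update q x g)
      ((hI q hq0 hq1 S _ h hEg hh).1 (Function.update ρ x 1)).1
    have iF3 : Integrable (fun p : PEnv × ℕ => Ex q x g (eA p.1) * Ex q x h (eB p.1))
        ((PN q ρ).prod (geo q)) :=
      ((hI q hq0 hq1 S _ _ hEg hEh).1 ρ).1.comp_fst (geo q)
    have e1 : ∫ p, (g (Function.update (eA p.1) x p.2) * Ex q x h (eB p.1))
        ∂((PN q ρ).prod (geo q)) = FF q (Ex q x g) (Ex q x h) ρ := by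
      rw [integral_prod _ iF1]
      unfold FF
      refine integral_congr_ae (Filter.Eventually.of_forall fun E => ?_)
      change ∫ k, g (Function.update (eA E) x k) * Ex q x h (eB E) ∂(geo q) = _
      rw [integral_mul_const]
      rfl
    have e2 : ∫ p, (Ex q x g (eA p.1) * h (Function.update (eB p.1) x p.2))
        ∂((PN q ρ).prod (geo q)) = FF q (Ex q x g) (Ex q x h) ρ := by
      rw [integral_prod _ iF2]
      unfold FF
      refine integral_congr_ae (Filter.Eventually.of_forall fun E => ?_)
      change ∫ k, Ex q x g (eA E) * h (Function.update (eB E) x k) ∂(geo q) = _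
      rw [integral_const_mul]
      rfl
    have e3 : ∫ p, (Ex q x g (eA p.1) * Ex q x h (eB p.1))
        ∂((PN q ρ).prod (geo q)) = FF q (Ex q x g) (Ex q x h) ρ := by
      rw [integral_prod _ iF3]
      unfold FF
      refine integral_congr_ae (Filter.Eventually.of_forall fun E => ?_)
      change ∫ k, Ex q x g (eA E) * Ex q x h (eB E) ∂(geo q) = _
      simp
    have eJ : ∫ p, (g (Function.update (eA p.1) x p.2) * h (Function.update (eB p.1) x p.2))
        ∂((PN q ρ).prod (geo q)) =
        ∫ k, FF q (fun ω => g (Function.update ω x k)) (fun ω => h (Function.update ω x k)) ρ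
          ∂(geo q) := by
      rw [integral_prod_symm _ iJ]
      rfl
    have i12 : Integrable (fun p : PEnv × ℕ =>
        g (Function.update (eA p.1) x p.2) * h (Function.update (eB p.1) x p.2) -
          g (Function.update (eA p.1) x p.2) * Ex q x h (eB p.1)) ((PN q ρ).prod (geo q)) :=
      iJ.sub iF1
    have i123 : Integrable (fun p : PEnv × ℕ =>
        g (Function.update (eA p.1) x p.2) * h (Function.update (eB p.1) x p.2) -
          g (Function.update (eA p.1) x p.2) * Ex q x h (eB p.1) -
          Ex q x g (eA p.1) * h (Function.update (eB p.1) x p.2)) ((PN q ρ).prod (geo q)) :=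
      i12.sub iF2
    have i1234 : Integrable (fun p : PEnv × ℕ =>
        g (Function.update (eA p.1) x p.2) * h (Function.update (eB p.1) x p.2) -
          g (Function.update (eA p.1) x p.2) * Ex q x h (eB p.1) -
          Ex q x g (eA p.1) * h (Function.update (eB p.1) x p.2) +
          Ex q x g (eA p.1) * Ex q x h (eB p.1)) ((PN q ρ).prod (geo q)) :=
      i123.add iF3
    have eD : ∫ k, FF q (fun ω => Dx q x g (Function.update ω x k))
          (fun ω => Dx q x h (Function.update ω x k)) ρ ∂(geo q) =
        ∫ p, (g (Function.update (eA p.1) x p.2) * h (Function.update (eB p.1) x p.2) -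
          g (Function.update (eA p.1) x p.2) * Ex q x h (eB p.1) -
          Ex q x g (eA p.1) * h (Function.update (eB p.1) x p.2) +
          Ex q x g (eA p.1) * Ex q x h (eB p.1)) ∂((PN q ρ).prod (geo q)) := by
      rw [integral_prod_symm _ i1234]
      refine integral_congr_ae (Filter.Eventually.of_forall fun k => ?_)
      unfold FF
      refine integral_congr_ae (Filter.Eventually.of_forall fun E => ?_)
      simp only [Dx, Ex_update]
      ring
    rw [eD, integral_add i123 iF3, integral_sub i12 iF2, integral_sub iJ iF1, e1, e2, e3, eJ]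
    ring
  constructor
  · rw [h1 q hq0 hq1 S g h hg hh ρ x s hs0 hs1, h1 q hq0 hq1 S g h hg hh ρ x 1 zero_le_one le_rfl,
      hK]
    ring
  · rw [hD s hs0 hs1, hD0]

end Pool.Agent.H2.NF
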