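import Pool.Agent.H97.NF.Targets

/-!
Module PLI of the board nf (MP_57ddd5_pr): the integral with respect to the pair law.
-/

open MeasureTheory ProbabilityTheory Filter Topology
open scoped ENNReal

namespace Pool.Agent.H2.NF

open Pool.Agent.H97.NF
open Pool.Agent.H99.NS

theorem pf_PLI : T_PLI := by
  intro q s hs0 hs1 g h1 h2
  have hcl : cl s = s := by
    unfold cl
    rw [min_eq_left hs1, max_eq_right hs0]
  have hm : AEMeasurable (fun k : ℕ => (k, k)) (geo q) := (measurable_from_nat).aemeasurable
  have hgm : AEStronglyMeasurable g ((geo q).map (fun k : ℕ => (k, k))) :=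
    (measurable_of_countable g).aestronglyMeasurable
  have hi1 : Integrable g ((geo q).map (fun k : ℕ => (k, k))) := by
    rw [integrable_map_measure hgm hm]
    exact h1
  have hi1' : Integrable g (ENNReal.ofReal (1 - s) • (geo q).map (fun k : ℕ => (k, k))) :=
    hi1.smul_measure ENNReal.ofReal_ne_top
  have hi2' : Integrable g (ENNReal.ofReal s • (geo q).prod (geo q)) :=
    h2.smul_measure ENNReal.ofReal_ne_top
  unfold pairLaw
  rw [hcl]
  refine ⟨hi1'.add_measure hi2', ?_⟩
  rw [integral_add_measure hi1' hi2', integral_smul_measure, integral_smul_measure,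
    ENNReal.toReal_ofReal (by linarith), ENNReal.toReal_ofReal hs0, smul_eq_mul, smul_eq_mul,
    integral_map hm hgm]

end Pool.Agent.H2.NF
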